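import Pool.Agent.Helper93.UG.Top
import Pool.Agent.Helper57.M.Z

/-!
# UG: from measure to ordinates; splitting of windows
-/

set_option autoImplicit false
open MeasureTheory Set Filter Topology
open Pool.Agent.Helper57.PC Pool.Agent.Helper57.Zeta Pool.Agent.Helper93.UG

namespace Pool.Agent.Helper56.UG

lemma fin_of {I : Set ℝ} {a b : ℝ} (hI : I ⊆ Icc a b) : {ρ : ℂ | IsNontrivialZero ρ ∧ ρ.im ∈ I}.Finite := by
  refine (zsym_finite (max |a| |b|)).subset ?_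
  rintro ρ ⟨h1, h2⟩
  have h3 := hI h2
  refine ⟨isNontrivialZero_iff.mp h1, ?_⟩
  exact abs_le_max_abs_abs h3.1 h3.2

lemma ord_fin (a b : ℝ) : {g : ℝ | IsOrd g ∧ g ∈ Icc a b}.Finite := by
  refine ((fin_of (I := Icc a b) subset_rfl).image Complex.im).subset ?_
  rintro g ⟨⟨ρ, h1, h2⟩, h3⟩
  exact ⟨ρ, ⟨h1, by rw [h2]; exact h3⟩, h2⟩

lemma zc_eq {I : Set ℝ} {a b : ℝ} (hI : I ⊆ Icc a b) : zc I = ∑ ρ ∈ (fin_of hI).toFinset, mult ρ := by
  unfold zc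
  rw [finsum_mem_eq_finite_toFinset_sum _ (fin_of hI)]

lemma zc_mono {I J : Set ℝ} {a b : ℝ} (hIJ : I ⊆ J) (hJ : J ⊆ Icc a b) : zc I ≤ zc J := by
  rw [zc_eq hJ, zc_eq (hIJ.trans hJ)]
  refine Finset.sum_le_sum_of_subset fun ρ hρ => ?_
  rw [Set.Finite.mem_toFinset] at hρ ⊢
  exact ⟨hρ.1, hIJ hρ.2⟩

lemma zc_pos {I : Set ℝ} (h : 0 < zc I) : ∃ g ∈ I, IsOrd g := by
  by_contra hcon
  push Not at hcon
  have h1 : {ρ : ℂ | IsNontrivialZero ρ ∧ ρ.im ∈ I} = ∅ := by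
    rw [Set.eq_empty_iff_forall_notMem]
    rintro ρ ⟨h1, h2⟩
    exact hcon _ h2 ⟨ρ, h1, rfl⟩
  unfold zc at h
  rw [h1, finsum_mem_empty] at h
  exact lt_irrefl _ h

lemma zc_union {I J : Set ℝ} {a b : ℝ} (hI : I ⊆ Icc a b) (hJ : J ⊆ Icc a b) (hd : Disjoint I J) : zc (I ∪ J) = zc I + zc J := by
  unfold zc
  have h1 : {ρ : ℂ | IsNontrivialZero ρ ∧ ρ.im ∈ I ∪ J} = {ρ : ℂ | IsNontrivialZero ρ ∧ ρ.im ∈ I} ∪ {ρ : ℂ | IsNontrivialZero ρ ∧ ρ.im ∈ J} := by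
    ext ρ
    simp only [Set.mem_ofPred_eq, Set.mem_union]
    tauto
  rw [h1, finsum_mem_union _ (fin_of hI) (fin_of hJ)]
  rw [Set.disjoint_left]
  rintro ρ ⟨_, h2⟩ ⟨_, h3⟩
  exact Set.disjoint_left.1 hd h2 h3

theorem split : Split := by
  intro t h m hh hm
  clear hm
  induction m with
  | zero =>
    simp only [Nat.cast_zero, zero_mul, add_zero, Finset.range_zero, Finset.sum_empty]
    rw [Set.Ico_self]
    unfold zc
    simp
  | succ m ih =>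
    rw [Finset.sum_range_succ, ← ih]
    have h1 : Ico t (t + ((m + 1 : ℕ) : ℝ) * h) = Ico t (t + m * h) ∪ Ico (t + m * h) (t + ((m : ℝ) + 1) * h) := by
      rw [Set.Ico_union_Ico_eq_Ico]
      · push_cast
        rfl
      · have : 0 ≤ (m : ℝ) * h := by positivity
        linarith
      · nlinarith
    have h0 : 0 ≤ (m : ℝ) * h := by positivity
    rw [h1, zc_union (a := t) (b := t + ((m : ℝ) + 1) * h)]
    · intro x hx
      exact ⟨hx.1, by nlinarith [hx.2]⟩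
    · intro x hx
      exact ⟨by linarith [hx.1], hx.2.le⟩
    · rw [Set.disjoint_left]
      intro x hx hx2
      exact absurd hx.2 (not_lt.2 hx2.1)

/-- the first ordinate in `[t, b]` -/
lemma first_ord {t b g0 : ℝ} (h0 : IsOrd g0) (h1 : t ≤ g0) (h2 : g0 ≤ b) : ∃ g, IsOrd g ∧ t ≤ g ∧ g ≤ g0 ∧ ∀ g', IsOrd g' → t ≤ g' → g' ≤ b → g ≤ g' := by
  obtain ⟨g, hg, hmin⟩ := Set.exists_min_image {g : ℝ | IsOrd g ∧ g ∈ Icc t b} id (ord_fin t b) ⟨g0, h0, h1, h2⟩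
  exact ⟨g, hg.1, hg.2.1, hmin g0 ⟨h0, h1, h2⟩, fun g' a b c => hmin g' ⟨a, b, c⟩⟩

/-- the last ordinate in `[a, t)` -/
lemma last_ord {a t g0 : ℝ} (h0 : IsOrd g0) (h1 : a ≤ g0) (h2 : g0 < t) : ∃ g, IsOrd g ∧ g0 ≤ g ∧ g < t ∧ ∀ g', IsOrd g' → a ≤ g' → g' < t → g' ≤ g := by
  have hf : {g : ℝ | IsOrd g ∧ g ∈ Ico a t}.Finite := (ord_fin a t).subset fun g hg => ⟨hg.1, hg.2.1, hg.2.2.le⟩
  obtain ⟨g, hg, hmax⟩ := Set.exists_max_image {g : ℝ | IsOrd g ∧ g ∈ Ico a t} id hf ⟨g0, h0, h1, h2⟩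
  exact ⟨g, hg.1, hmax g0 ⟨h0, h1, h2⟩, hg.2.2, fun g' a b c => hmax g' ⟨a, b, c⟩⟩

lemma Gshort_finite (T ℓ : ℝ) (r : ℕ) : (Gshort T ℓ r).Finite :=
  (ord_fin T (2 * T)).subset fun _ hg => ⟨hg.2.2.1, hg.1, hg.2.1⟩

lemma Glong_finite (T ℓ : ℝ) (r : ℕ) : (Glong T ℓ r).Finite :=
  (ord_fin T (2 * T)).subset fun _ hg => ⟨hg.2.2.1, hg.1, hg.2.1⟩

lemma sp_pos {T : ℝ} (hT : Real.exp 1 ≤ T) : 0 < sp T := by
  have h1 : 1 ≤ Real.log T := by
    rw [← Real.log_exp 1]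
    exact Real.log_le_log (Real.exp_pos _) hT
  unfold sp
  have := Real.pi_pos
  positivity

/-- covering by intervals of equal length -/
lemma vol_cover {S : Set ℝ} {G : Set ℝ} (hG : G.Finite) {L : ℝ} (hL : 0 ≤ L) {I : ℝ → Set ℝ} (hI : ∀ g, volume (I g) ≤ ENNReal.ofReal L) {J : Set ℝ}
    (hJ : volume J ≤ ENNReal.ofReal L) (hS : S ⊆ (⋃ g ∈ G, I g) ∪ J) : volume S ≤ ENNReal.ofReal (L * ((G.ncard : ℝ) + 1)) := by
  refine (measure_mono hS).trans ((measure_union_le _ _).trans ?_)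
  have h1 : volume (⋃ g ∈ G, I g) ≤ ENNReal.ofReal (L * (G.ncard : ℝ)) := by
    have h2 : (⋃ g ∈ G, I g) = ⋃ g ∈ hG.toFinset, I g := by simp
    rw [h2]
    refine (measure_biUnion_finset_le _ _).trans ?_
    refine (Finset.sum_le_sum fun g _ => hI g).trans ?_
    rw [Finset.sum_const, nsmul_eq_mul, mul_comm L, ENNReal.ofReal_mul (by positivity), ENNReal.ofReal_natCast,
      Set.ncard_eq_toFinset_card G hG]
  refine (add_le_add h1 hJ).trans ?_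
  rw [← ENNReal.ofReal_add (by positivity) hL]
  apply ENNReal.ofReal_le_ofReal
  linarith

theorem cvp : CVp := by
  intro T ℓ hT hℓ r
  have hsp := sp_pos hT
  have hT0 : 0 < T := lt_of_lt_of_le (Real.exp_pos _) hT
  have hL : 0 < ℓ * sp T := by positivity
  refine vol_cover (Gshort_finite T ℓ r) hL.le (I := fun g => Icc (g - ℓ * sp T) g) (J := Icc (2 * T - ℓ * sp T) (2 * T)) (fun g => ?_) ?_ ?_
  · rw [Real.volume_Icc, sub_sub_cancel]
  · rw [Real.volume_Icc, sub_sub_cancel]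
  · rintro t ⟨h1, h2, h3⟩
    have hsub : Ico t (t + ℓ * sp T) ⊆ Icc t (t + ℓ * sp T) := Set.Ico_subset_Icc_self
    obtain ⟨g0, hg0, hord⟩ := zc_pos (lt_of_le_of_lt (Nat.zero_le r) h3)
    obtain ⟨g, a1, a2, a3, a4⟩ := first_ord hord hg0.1 hg0.2.le
    by_cases h4 : g ≤ 2 * T
    · left
      simp only [Set.mem_iUnion]
      refine ⟨g, ⟨h1.trans a2, h4, a1, lt_of_lt_of_le h3 ?_⟩, ?_, a2⟩
      · -- the zeros in the window have ordinates `≥ g`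
        have h5 : zc (Ico t (t + ℓ * sp T)) ≤ zc (Icc g (g + ℓ * sp T)) := by
          rw [zc_eq (I := Ico t (t + ℓ * sp T)) hsub, zc_eq (I := Icc g (g + ℓ * sp T)) subset_rfl]
          refine Finset.sum_le_sum_of_subset fun ρ hρ => ?_
          rw [Set.Finite.mem_toFinset] at hρ ⊢
          obtain ⟨b1, b2⟩ := hρ
          exact ⟨b1, a4 _ ⟨ρ, b1, rfl⟩ b2.1 b2.2.le, by linarith [b2.2]⟩
        exact h5
      · linarith [hg0.2]
    · right
      push Not at h4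
      exact ⟨by linarith [hg0.2], h2⟩

theorem cvm : CVm := by
  intro T ℓ D hT hℓ hD r
  have hsp := sp_pos hT
  have hT0 : 0 < T := lt_of_lt_of_le (Real.exp_pos _) hT
  refine vol_cover (Glong_finite T ℓ r) hD.le (I := fun g => Icc g (g + D)) (J := Icc T (T + D)) (fun g => ?_) ?_ ?_
  · rw [Real.volume_Icc, add_sub_cancel_left]
  · rw [Real.volume_Icc, add_sub_cancel_left]
  · rintro t ⟨h1, h2, h3, g0, hord, hg1, hg2⟩
    obtain ⟨g, a1, a2, a3, a4⟩ := last_ord hord hg1 hg2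
    by_cases h4 : T ≤ g
    · left
      simp only [Set.mem_iUnion]
      refine ⟨g, ⟨h4, by linarith, a1, lt_of_le_of_lt ?_ h3⟩, a3.le, by linarith⟩
      have hs1 : Ioo g (g + ℓ * sp T) ⊆ Icc g (g + ℓ * sp T) := Set.Ioo_subset_Icc_self
      have hs2 : Ico t (t + ℓ * sp T) ⊆ Icc t (t + ℓ * sp T) := Set.Ico_subset_Icc_self
      rw [zc_eq hs1, zc_eq hs2]
      refine Finset.sum_le_sum_of_subset fun ρ hρ => ?_
      rw [Set.Finite.mem_toFinset] at hρ ⊢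
      obtain ⟨b1, b2⟩ := hρ
      refine ⟨b1, ?_, by linarith [b2.2]⟩
      by_contra hlt
      push Not at hlt
      have h5 := a4 _ ⟨ρ, b1, rfl⟩ (by linarith [b2.1]) hlt
      exact absurd b2.1 (not_lt.2 h5)
    · right
      push Not at h4
      exact ⟨h1, by linarith⟩

end Pool.Agent.Helper56.UG
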