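import Pool.Agent.Helper56.UG.FarC

/-!
# UG: block Z8 (`far_mean`), from Z3-Z7 and R2
-/

set_option autoImplicit false
open MeasureTheory Set Filter Topology
open Pool.Agent.Helper57.Zeta Pool.Agent.Helper57.LH Pool.Agent.Helper57.ED Pool.Agent.Helper54.LG
open Pool.Agent.Helper69.UG

namespace Pool.Agent.Helper56.UG

/-- constants depending on `c` -/
lemma ev_c (C4 : ℝ) : ∃ c0 : ℝ, ∀ c : ℝ, c0 ≤ c → 4 * (2 + 4 * c ^ 2) * C4 * Real.exp (-√c) ≤ 1 / 4 := by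
  have h1 : Tendsto (fun x : ℝ => x ^ 4 * Real.exp (-x)) atTop (𝓝 0) := Real.tendsto_pow_mul_exp_neg_atTop_nhds_zero 4
  have h2 : Tendsto (fun c : ℝ => √c ^ 4 * Real.exp (-√c)) atTop (𝓝 0) := h1.comp Real.tendsto_sqrt_atTop
  have hpos : 0 < 1 / (4 * (24 * (|C4| + 1))) := by positivity
  obtain ⟨c0, h0⟩ := Filter.eventually_atTop.1 (h2.eventually_le_const hpos)
  refine ⟨max c0 1, fun c hc => ?_⟩
  have hc1 : 1 ≤ c := (le_max_right _ _).trans hc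
  have h3 := h0 c ((le_max_left _ _).trans hc)
  have h4 : √c ^ 4 = c ^ 2 := by
    rw [show (4 : ℕ) = 2 * 2 by norm_num, pow_mul, Real.sq_sqrt (by linarith)]
  rw [h4] at h3
  have h5 : 2 + 4 * c ^ 2 ≤ 6 * c ^ 2 := by nlinarith
  have h6 : C4 ≤ |C4| + 1 := by linarith [le_abs_self C4]
  have h7 : 0 < Real.exp (-√c) := Real.exp_pos _
  have h8 : 0 < |C4| + 1 := by positivity
  calc 4 * (2 + 4 * c ^ 2) * C4 * Real.exp (-√c) ≤ 4 * (6 * c ^ 2) * (|C4| + 1) * Real.exp (-√c) := by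
        apply mul_le_mul_of_nonneg_right _ h7.le
        calc 4 * (2 + 4 * c ^ 2) * C4 ≤ 4 * (2 + 4 * c ^ 2) * (|C4| + 1) := mul_le_mul_of_nonneg_left h6 (by positivity)
          _ ≤ 4 * (6 * c ^ 2) * (|C4| + 1) := by
              apply mul_le_mul_of_nonneg_right _ h8.le
              linarith
    _ = (24 * (|C4| + 1)) * (c ^ 2 * Real.exp (-√c)) := by ring
    _ ≤ (24 * (|C4| + 1)) * (1 / (4 * (24 * (|C4| + 1)))) := mul_le_mul_of_nonneg_left h3 (by positivity)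
    _ = 1 / 4 := by field_simp

/-- constants depending on `T` -/
lemma ev_T (C3 C7 I1 : ℝ) : ∃ T0 : ℝ, ∀ T : ℝ, T0 ≤ T → Real.exp 3 ≤ T ∧ 1 ≤ Real.log (Real.log T) ∧
    2 * ((2 + 4 * Real.log T ^ 2) * (C3 * T ^ (-(1 / 1000) : ℝ)) * (3 * Real.log T * T ^ (1 / 4000 : ℝ))) ≤ 1 / 4 ∧
    T ^ (1 / 4000 : ℝ) * T ^ (-(1 / 2000) : ℝ) ≤ 1 / 4 ∧
    T ^ (1 / 4000 : ℝ) * (C7 / T) * (I1 * (T ^ (1 / 8 : ℝ) * T ^ (1 / 192 : ℝ)) ^ 2 * √T) ≤ 1 / 4 := by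
  have hl : Tendsto Real.log atTop atTop := Real.tendsto_log_atTop
  -- `log^3 T T^(-3/4000) → 0`
  have t1 : Tendsto (fun T : ℝ => 36 * |C3| * (Real.log T ^ (3 : ℝ) / T ^ (3 / 4000 : ℝ))) atTop (𝓝 (36 * |C3| * 0)) :=
    ((isLittleO_log_rpow_rpow_atTop (3 : ℝ) (by norm_num : (0 : ℝ) < 3 / 4000)).tendsto_div_nhds_zero).const_mul _
  have t2 : Tendsto (fun T : ℝ => T ^ (-(1 / 4000) : ℝ)) atTop (𝓝 0) := tendsto_rpow_neg_atTop (by norm_num)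
  have t3 : Tendsto (fun T : ℝ => |C7| * |I1| * T ^ (-(1 / 8) : ℝ)) atTop (𝓝 (|C7| * |I1| * 0)) :=
    (tendsto_rpow_neg_atTop (by norm_num)).const_mul _
  rw [mul_zero] at t1 t3
  obtain ⟨T0, h0⟩ := Filter.eventually_atTop.1 ((((t1.eventually_le_const (show (0 : ℝ) < 1 / 4 by norm_num)).and
    (t2.eventually_le_const (show (0 : ℝ) < 1 / 4 by norm_num))).and
    (t3.eventually_le_const (show (0 : ℝ) < 1 / 4 by norm_num))).and (((hl.comp hl).eventually_ge_atTop 1).and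
      (eventually_ge_atTop (Real.exp 3))))
  refine ⟨T0, fun T hT => ?_⟩
  obtain ⟨⟨⟨a1, a2⟩, a3⟩, a4, a5⟩ := h0 T hT
  simp only [Function.comp_apply] at a4
  have hT1 : 1 ≤ T := le_trans (by have := Real.add_one_le_exp (3 : ℝ); linarith) a5
  have hT0 : 0 < T := by linarith
  have hL3 : 3 ≤ Real.log T := by
    rw [← Real.log_exp 3]
    exact Real.log_le_log (Real.exp_pos _) a5
  refine ⟨a5, a4, ?_, ?_, ?_⟩
  · have e1 : T ^ (-(1 / 1000) : ℝ) * T ^ (1 / 4000 : ℝ) = (T ^ (3 / 4000 : ℝ))⁻¹ := by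
      rw [← Real.rpow_add hT0, ← Real.rpow_neg hT0.le]
      norm_num
    have e2 : 2 * ((2 + 4 * Real.log T ^ 2) * (C3 * T ^ (-(1 / 1000) : ℝ)) * (3 * Real.log T * T ^ (1 / 4000 : ℝ))) =
        6 * (2 + 4 * Real.log T ^ 2) * Real.log T * C3 * (T ^ (3 / 4000 : ℝ))⁻¹ := by
      rw [← e1]
      ring
    rw [e2]
    refine le_trans ?_ a1
    have e3 : Real.log T ^ (3 : ℝ) = Real.log T ^ 3 := by exact_mod_cast Real.rpow_natCast (Real.log T) 3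
    have e5 : 36 * |C3| * (Real.log T ^ (3 : ℝ) / T ^ (3 / 4000 : ℝ)) = 36 * |C3| * Real.log T ^ 3 * (T ^ (3 / 4000 : ℝ))⁻¹ := by
      rw [e3]
      ring
    rw [e5]
    apply mul_le_mul_of_nonneg_right _ (by positivity)
    have e4 : 2 + 4 * Real.log T ^ 2 ≤ 6 * Real.log T ^ 2 := by nlinarith
    calc 6 * (2 + 4 * Real.log T ^ 2) * Real.log T * C3 ≤ 6 * (2 + 4 * Real.log T ^ 2) * Real.log T * |C3| :=
          mul_le_mul_of_nonneg_left (le_abs_self _) (by positivity)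
      _ ≤ 6 * (6 * Real.log T ^ 2) * Real.log T * |C3| := by gcongr
      _ = 36 * |C3| * Real.log T ^ 3 := by ring
  · rw [← Real.rpow_add hT0]
    refine le_trans (le_of_eq ?_) a2
    norm_num
  · refine le_trans ?_ a3
    have e1 : T ^ (1 / 4000 : ℝ) * (C7 / T) * (I1 * (T ^ (1 / 8 : ℝ) * T ^ (1 / 192 : ℝ)) ^ 2 * √T) =
        C7 * I1 * (T ^ (1 / 4000 : ℝ) * T⁻¹ * (T ^ (1 / 8 : ℝ) * T ^ (1 / 192 : ℝ)) ^ 2 * √T) := by
      rw [div_eq_mul_inv]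
      ring
    have e2 : T ^ (1 / 4000 : ℝ) * T⁻¹ * (T ^ (1 / 8 : ℝ) * T ^ (1 / 192 : ℝ)) ^ 2 * √T = T ^ (1 / 4000 - 1 + (1 / 8 + 1 / 192) * 2 + 1 / 2 : ℝ) := by
      rw [← Real.rpow_add hT0, ← Real.rpow_natCast (T ^ (1 / 8 + 1 / 192 : ℝ)) 2, ← Real.rpow_mul hT0.le, Real.sqrt_eq_rpow,
        ← Real.rpow_neg_one T, ← Real.rpow_add hT0, ← Real.rpow_add hT0, ← Real.rpow_add hT0]
      norm_num
    rw [e1, e2]
    have e3 : T ^ (1 / 4000 - 1 + (1 / 8 + 1 / 192) * 2 + 1 / 2 : ℝ) ≤ T ^ (-(1 / 8) : ℝ) :=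
      Real.rpow_le_rpow_of_exponent_le hT1 (by norm_num)
    calc C7 * I1 * T ^ (1 / 4000 - 1 + (1 / 8 + 1 / 192) * 2 + 1 / 2 : ℝ) ≤
          |C7| * |I1| * T ^ (1 / 4000 - 1 + (1 / 8 + 1 / 192) * 2 + 1 / 2 : ℝ) := by
          apply mul_le_mul_of_nonneg_right _ (by positivity)
          rw [← abs_mul]
          exact le_abs_self _
      _ ≤ |C7| * |I1| * T ^ (-(1 / 8) : ℝ) := mul_le_mul_of_nonneg_left e3 (by positivity)

/-- Z8 from its inputs -/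
theorem far_mean_of
    (h3 : ∃ C : ℝ, 0 < C ∧ ∀ T : ℝ, 3 ≤ T → ∀ c y : ℝ, 0 < y → ∀ K : ℕ, 1 ≤ K → 4 * 2 ^ K * y ≤ Real.log T / 4 →
      ∀ (t : ℝ) (Z : Finset ZS),
      (∀ ρ ∈ Z, y ≤ Real.log T * ((ρ : ℂ).re - 1 / 2) ∧ Real.log T * ((ρ : ℂ).re - 1 / 2) ≤ 2 * y ∧
        |(ρ : ℂ).im - t| ≤ y / Real.log T) →
      ∑ ρ ∈ Z, mx ρ ≤ GY T c y K t + C * Real.log (4 + |t|) * (2 * cen T c y (K - 1) t))
    (h4 : ∃ C c0 T0 : ℝ, 0 < C ∧ ∀ T, T0 ≤ T → ∀ c, Adm c0 T c → ∀ v : ℝ, v ^ 2 = c / 100 →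
      ∀ τ u y : ℝ, |τ| ≤ 2 * T → |u| ≤ T → 2 ≤ y → ∀ K : ℕ, 1 ≤ K → 4 * 2 ^ K * y ≤ Real.log T / 4 →
      Integrable (fun t => wt T c v τ t * GY T c y K (t + u)) ∧
      ∫ t, wt T c v τ t * GY T c y K (t + u) ≤ C * Real.exp (C * √c - y / 64) * VV T c v)
    (h5 : ∃ c0 T0 : ℝ, ∀ T, T0 ≤ T → ∀ c, Adm c0 T c → ∀ v : ℝ, v ^ 2 = c / 100 →
      ∀ τ u y : ℝ, |τ| ≤ 2 * T → |u| ≤ T → 2 ≤ y → ∀ K : ℕ, 1 ≤ K → 4 * 2 ^ K * y ≤ Real.log T / 4 →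
      Real.log T / 4 < 8 * 2 ^ K * y →
      Integrable (fun t => wt T c v τ t * (Real.log (4 + |t + u|) * cen T c y (K - 1) (t + u))) ∧
      ∫ t, wt T c v τ t * (Real.log (4 + |t + u|) * cen T c y (K - 1) (t + u)) ≤ T ^ (-(1 / 1000) : ℝ) * VV T c v)
    (h6 : open Classical in ∃ c0 T0 : ℝ, ∀ T, T0 ≤ T → ∀ c, Adm c0 T c → ∀ v : ℝ, v ^ 2 = c / 100 →
      ∀ τ u : ℝ, |τ| ≤ 2 * T → |u| ≤ T →
      Integrable (fun t => wt T c v τ t * ∑' ρ : ZS, mx ρ * (if |(ρ : ℂ).re - 1 / 2| < 1 / 64 then 0 else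
        1 / (1 + zb (XX T c) (t + u) ρ ^ 2))) ∧
      ∫ t, wt T c v τ t * ∑' ρ : ZS, mx ρ * (if |(ρ : ℂ).re - 1 / 2| < 1 / 64 then 0 else
        1 / (1 + zb (XX T c) (t + u) ρ ^ 2)) ≤ T ^ (-(1 / 2000) : ℝ) * VV T c v)
    (h7 : open Classical in ∃ C : ℝ, 0 < C ∧ ∀ T : ℝ, 3 ≤ T → ∀ X : ℝ, 1 ≤ X → ∀ t : ℝ,
      Summable (fun ρ : ZS => mx ρ * (1 / (1 + zb X t ρ ^ 2))) ∧
      ∑' ρ : ZS, mx ρ * (if |(ρ : ℂ).im - t| ≤ T / 2 then 0 else 1 / (1 + zb X t ρ ^ 2)) ≤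
        C * Real.log (4 + T + |t|) / T)
    (h2 : ∃ c0 T0 : ℝ, ∀ T, T0 ≤ T → ∀ c, Adm c0 T c → ∀ v : ℝ, v ^ 2 = c / 100 → ∀ n,
      |rr T c v n| ≤ T ^ (1 / 192 : ℝ) ∧ 1 ≤ VV T c v) :
    ∃ C1 c0 T0 : ℝ, 1 ≤ C1 ∧ ∀ T, T0 ≤ T → ∀ c, Adm c0 T c → ∀ v : ℝ, v ^ 2 = c / 100 →
      ∀ τ u : ℝ, |τ| ≤ 2 * T → |u| ≤ T / 4 →
      Integrable (fun t => wt T c v τ t * far T c (C1 * √c) (t + u)) ∧
      ∫ t, wt T c v τ t * far T c (C1 * √c) (t + u) ≤ VV T c v := by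
  classical
  obtain ⟨C3', hC3', h3⟩ := h3
  obtain ⟨C4, c4, T4, hC4, h4⟩ := h4
  obtain ⟨c5, T5, h5⟩ := h5
  obtain ⟨c6, T6, h6⟩ := h6
  obtain ⟨C7, hC7, h7⟩ := h7
  obtain ⟨c2, T2, h2⟩ := h2
  obtain ⟨I1, hI1, hlog⟩ := wt_log
  set C3 : ℝ := 2 * C3' with hC3
  have hC30 : 0 < C3 := by positivity
  obtain ⟨cc0, hcc⟩ := ev_c C4
  obtain ⟨TT0, hTT⟩ := ev_T C3 C7 I1
  set C1 : ℝ := 128 * (C4 + 1) with hC1
  refine ⟨C1, max (max (max c4 c5) (max c6 c2)) (max cc0 4000), max (max (max T4 T5) (max T6 T2)) TT0, by rw [hC1]; linarith, ?_⟩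
  intro T hT c hc v hv τ u hτ hu
  simp only [Adm, max_le_iff] at hT hc
  obtain ⟨⟨⟨⟨hc4, hc5⟩, hc6, hc2⟩, hccc, hc4000⟩, hcA⟩ := hc
  obtain ⟨⟨⟨hT4, hT5⟩, hT6, hT2⟩, hTTT⟩ := hT
  obtain ⟨g1, g2, g3, g4, g5⟩ := hTT T hTTT
  have hcpos : 0 < c := by linarith
  have hT3 : 3 ≤ T := le_trans (by have := Real.add_one_le_exp (3 : ℝ); linarith) g1
  have hT0 : 0 < T := by linarith
  have hL3 : 3 ≤ Real.log T := by
    rw [← Real.log_exp 3]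
    exact Real.log_le_log (Real.exp_pos _) g1
  have hcL : c ≤ Real.log T := by nlinarith
  have hX16 : 16 ≤ XX T c := by
    unfold XX
    rw [le_div_iff₀ hcpos]
    nlinarith
  have hXe : Real.exp (XX T c) ≤ T ^ (1 / 4000 : ℝ) := by
    rw [Real.rpow_def_of_pos hT0]
    apply Real.exp_le_exp.2
    unfold XX
    rw [div_le_iff₀ hcpos]
    nlinarith
  have hV1 : 1 ≤ VV T c v := (h2 T hT2 c ⟨hc2, hcA⟩ v hv 0).2
  have hrr : ∀ n, |rr T c v n| ≤ T ^ (1 / 192 : ℝ) := fun n => (h2 T hT2 c ⟨hc2, hcA⟩ v hv n).1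
  have hV0 : 0 ≤ VV T c v := by linarith
  have hsq : 1 ≤ √c := by
    rw [Real.one_le_sqrt]
    linarith
  set Y : ℝ := C1 * √c with hY
  have hC1128 : 128 ≤ C1 := by rw [hC1]; linarith
  have hY128 : 128 ≤ Y := by
    rw [hY]
    nlinarith
  have hY1 : 1 ≤ Y := by linarith
  have hch : ∀ T : ℝ, 3 ≤ T → ∀ c y : ℝ, 0 < y → ∀ K : ℕ, 1 ≤ K → 4 * 2 ^ K * y ≤ Real.log T / 4 →
      ∀ (t : ℝ) (Z : Finset ZS),
      (∀ ρ ∈ Z, y ≤ Real.log T * ((ρ : ℂ).re - 1 / 2) ∧ Real.log T * ((ρ : ℂ).re - 1 / 2) ≤ 2 * y ∧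
        |(ρ : ℂ).im - t| ≤ y / Real.log T) →
      ∑ ρ ∈ Z, mx ρ ≤ GY T c y K t + C3 / 2 * Real.log (4 + |t|) * (2 * cen T c y (K - 1) t) := by
    intro T hT c y hy K hK hKy t Z hZ
    have := h3 T hT c y hy K hK hKy t Z hZ
    rw [hC3, mul_div_cancel_left₀ _ (by norm_num : (2 : ℝ) ≠ 0)]
    exact this
  -- the means
  have hLY : ∀ k ∈ IK T Y, Integrable (fun t => wt T c v τ t * LY C3 T c (2 ^ k * Y) (t + u)) ∧
      ∫ t, wt T c v τ t * LY C3 T c (2 ^ k * Y) (t + u) ≤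
        Real.exp (4 * (2 ^ k * Y) / c) * ((2 + 4 * c ^ 2) * ((C4 * Real.exp (C4 * √c - 2 ^ k * Y / 64) + C3 * T ^ (-(1 / 1000) : ℝ)) * VV T c v)) := by
    intro k hk
    have h1k : (1 : ℝ) ≤ 2 ^ k := one_le_pow₀ (by norm_num)
    have hkI : 2 ^ k * Y ≤ Real.log T / 64 := by
      unfold IK at hk
      exact (Finset.mem_filter.1 hk).2
    refine mean_LY hC30.le hC4.le hT3 hu hV0 ?_ ?_ (by nlinarith) hkI
    · intro u' y hu' hy K hK hKy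
      exact h4 T hT4 c ⟨hc4, hcA⟩ v hv τ u' y hτ hu' hy K hK hKy
    · intro u' y hu' hy K hK hKy hKy2
      exact h5 T hT5 c ⟨hc5, hcA⟩ v hv τ u' y hτ hu' hy K hK hKy hKy2
  obtain ⟨i6, b6⟩ := h6 T hT6 c ⟨hc6, hcA⟩ v hv τ u hτ (by linarith)
  obtain ⟨i7, b7⟩ := hlog T c v τ u _ (by linarith) hrr hτ hu
  -- the majorant
  set M : ℝ → ℝ := fun t => 2 * ∑ k ∈ IK T Y, wt T c v τ t * LY C3 T c (2 ^ k * Y) (t + u) +
    Real.exp (XX T c) * (C7 / T) * (wt T c v τ t * Real.log (4 + T + |t + u|)) +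
    Real.exp (XX T c) * (wt T c v τ t * ∑' ρ : ZS, mx ρ * (if |(ρ : ℂ).re - 1 / 2| < 1 / 64 then 0 else
      1 / (1 + zb (XX T c) (t + u) ρ ^ 2))) with hM
  have iA : Integrable (fun t => 2 * ∑ k ∈ IK T Y, wt T c v τ t * LY C3 T c (2 ^ k * Y) (t + u)) :=
    (integrable_finsetSum _ fun k hk => (hLY k hk).1).const_mul 2
  have iB : Integrable (fun t => Real.exp (XX T c) * (C7 / T) * (wt T c v τ t * Real.log (4 + T + |t + u|))) := i7.const_mul _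
  have iC : Integrable (fun t => Real.exp (XX T c) * (wt T c v τ t * ∑' ρ : ZS, mx ρ * (if |(ρ : ℂ).re - 1 / 2| < 1 / 64 then 0 else
      1 / (1 + zb (XX T c) (t + u) ρ ^ 2)))) := i6.const_mul _
  have iM : Integrable M := (iA.add iB).add iC
  have bA : ∫ t, 2 * ∑ k ∈ IK T Y, wt T c v τ t * LY C3 T c (2 ^ k * Y) (t + u) ≤ 1 / 4 * VV T c v + 1 / 4 * VV T c v := by
    rw [integral_const_mul, integral_finsetSum _ fun k hk => (hLY k hk).1]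
    have q1 : ∑ k ∈ IK T Y, ∫ t, wt T c v τ t * LY C3 T c (2 ^ k * Y) (t + u) ≤
        ∑ k ∈ IK T Y, ((2 + 4 * c ^ 2) * (C4 * Real.exp (C4 * √c)) * VV T c v *
          (Real.exp (4 * (2 ^ k * Y) / c) * Real.exp (-(2 ^ k * Y / 64))) +
          (2 + 4 * c ^ 2) * (C3 * T ^ (-(1 / 1000) : ℝ)) * VV T c v * Real.exp (4 * (2 ^ k * Y) / c)) := by
      refine Finset.sum_le_sum fun k hk => (hLY k hk).2.trans (le_of_eq ?_)
      rw [sub_eq_add_neg, Real.exp_add]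
      ring
    rw [Finset.sum_add_distrib, ← Finset.mul_sum, ← Finset.mul_sum] at q1
    have q2 := sum_k1 (T := T) (Y := Y) (show 512 ≤ c by linarith) hY128
    have q3 := sum_k2 (T := T) (c := c) (Y := Y) (le_trans (Real.exp_le_exp.2 (by norm_num)) g1) (by linarith)
    have q4 : Real.exp (C4 * √c) * (2 * Real.exp (-(Y / 128))) = 2 * Real.exp (-√c) := by
      have q5 : -√c = C4 * √c + -(Y / 128) := by
        rw [hY, hC1]
        ring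
      rw [q5, Real.exp_add]
      ring
    have q5 := hcc c hccc
    have q6 : 2 * ((2 + 4 * c ^ 2) * (C4 * Real.exp (C4 * √c)) * VV T c v * ∑ k ∈ IK T Y,
        (Real.exp (4 * (2 ^ k * Y) / c) * Real.exp (-(2 ^ k * Y / 64)))) ≤ 1 / 4 * VV T c v := by
      calc 2 * ((2 + 4 * c ^ 2) * (C4 * Real.exp (C4 * √c)) * VV T c v * ∑ k ∈ IK T Y,
            (Real.exp (4 * (2 ^ k * Y) / c) * Real.exp (-(2 ^ k * Y / 64)))) ≤
            2 * ((2 + 4 * c ^ 2) * (C4 * Real.exp (C4 * √c)) * VV T c v * (2 * Real.exp (-(Y / 128)))) := by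
            apply mul_le_mul_of_nonneg_left _ (by norm_num)
            apply mul_le_mul_of_nonneg_left q2 (by positivity)
        _ = 2 * (2 + 4 * c ^ 2) * C4 * VV T c v * (Real.exp (C4 * √c) * (2 * Real.exp (-(Y / 128)))) := by ring
        _ = (4 * (2 + 4 * c ^ 2) * C4 * Real.exp (-√c)) * VV T c v := by rw [q4]; ring
        _ ≤ 1 / 4 * VV T c v := mul_le_mul_of_nonneg_right q5 hV0
    have q7 : 2 * ((2 + 4 * c ^ 2) * (C3 * T ^ (-(1 / 1000) : ℝ)) * VV T c v * ∑ k ∈ IK T Y, Real.exp (4 * (2 ^ k * Y) / c)) ≤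
        1 / 4 * VV T c v := by
      calc 2 * ((2 + 4 * c ^ 2) * (C3 * T ^ (-(1 / 1000) : ℝ)) * VV T c v * ∑ k ∈ IK T Y, Real.exp (4 * (2 ^ k * Y) / c)) ≤
            2 * ((2 + 4 * Real.log T ^ 2) * (C3 * T ^ (-(1 / 1000) : ℝ)) * VV T c v * (3 * Real.log T * T ^ (1 / 4000 : ℝ))) := by
            apply mul_le_mul_of_nonneg_left _ (by norm_num)
            apply mul_le_mul _ q3 (Finset.sum_nonneg fun k _ => (Real.exp_pos _).le) (by positivity)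
            apply mul_le_mul_of_nonneg_right _ hV0
            apply mul_le_mul_of_nonneg_right _ (by positivity)
            have : c ^ 2 ≤ Real.log T ^ 2 := pow_le_pow_left₀ hcpos.le hcL 2
            linarith
        _ = 2 * ((2 + 4 * Real.log T ^ 2) * (C3 * T ^ (-(1 / 1000) : ℝ)) * (3 * Real.log T * T ^ (1 / 4000 : ℝ))) * VV T c v := by ring
        _ ≤ 1 / 4 * VV T c v := mul_le_mul_of_nonneg_right g3 hV0
    linarith
  have bB : ∫ t, Real.exp (XX T c) * (C7 / T) * (wt T c v τ t * Real.log (4 + T + |t + u|)) ≤ 1 / 4 * VV T c v := by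
    rw [integral_const_mul]
    have q1 : (NR T : ℝ) ≤ T ^ (1 / 8 : ℝ) := by
      unfold NR
      exact Nat.floor_le (by positivity)
    have q2 : I1 * (NR T * T ^ (1 / 192 : ℝ)) ^ 2 * √T ≤ I1 * (T ^ (1 / 8 : ℝ) * T ^ (1 / 192 : ℝ)) ^ 2 * √T := by gcongr
    calc Real.exp (XX T c) * (C7 / T) * ∫ t, wt T c v τ t * Real.log (4 + T + |t + u|) ≤
          T ^ (1 / 4000 : ℝ) * (C7 / T) * (I1 * (T ^ (1 / 8 : ℝ) * T ^ (1 / 192 : ℝ)) ^ 2 * √T) := by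
          apply mul_le_mul _ (b7.trans q2) (integral_nonneg fun t => mul_nonneg (wt_nonneg hT0 c v τ t)
            (Real.log_nonneg (by have := abs_nonneg (t + u); linarith))) (by positivity)
          exact mul_le_mul_of_nonneg_right hXe (by positivity)
      _ ≤ 1 / 4 := g5
      _ ≤ 1 / 4 * VV T c v := by linarith
  have bC : ∫ t, Real.exp (XX T c) * (wt T c v τ t * ∑' ρ : ZS, mx ρ * (if |(ρ : ℂ).re - 1 / 2| < 1 / 64 then 0 else
      1 / (1 + zb (XX T c) (t + u) ρ ^ 2))) ≤ 1 / 4 * VV T c v := by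
    rw [integral_const_mul]
    calc Real.exp (XX T c) * ∫ t, (wt T c v τ t * ∑' ρ : ZS, mx ρ * (if |(ρ : ℂ).re - 1 / 2| < 1 / 64 then 0 else
          1 / (1 + zb (XX T c) (t + u) ρ ^ 2))) ≤ Real.exp (XX T c) * (T ^ (-(1 / 2000) : ℝ) * VV T c v) :=
          mul_le_mul_of_nonneg_left b6 (Real.exp_pos _).le
      _ ≤ T ^ (1 / 4000 : ℝ) * (T ^ (-(1 / 2000) : ℝ) * VV T c v) := mul_le_mul_of_nonneg_right hXe (by positivity)
      _ = (T ^ (1 / 4000 : ℝ) * T ^ (-(1 / 2000) : ℝ)) * VV T c v := by ring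
      _ ≤ 1 / 4 * VV T c v := mul_le_mul_of_nonneg_right g4 hV0
  have bM : ∫ t, M t ≤ VV T c v := by
    have e1 : ∫ t, M t = (∫ t, 2 * ∑ k ∈ IK T Y, wt T c v τ t * LY C3 T c (2 ^ k * Y) (t + u)) +
        (∫ t, Real.exp (XX T c) * (C7 / T) * (wt T c v τ t * Real.log (4 + T + |t + u|))) +
        ∫ t, Real.exp (XX T c) * (wt T c v τ t * ∑' ρ : ZS, mx ρ * (if |(ρ : ℂ).re - 1 / 2| < 1 / 64 then 0 else
          1 / (1 + zb (XX T c) (t + u) ρ ^ 2))) := by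
      have e2 := integral_add (iA.add iB) iC
      simp only [Pi.add_apply] at e2
      rw [integral_add iA iB] at e2
      exact e2
    rw [e1]
    linarith
  -- the sum over the zeros
  set F : ZS → ℝ → ℝ := fun ρ t => wt T c v τ t * (mx ρ * (if Real.log T * |(ρ : ℂ).re - 1 / 2| < Y then 0 else
    Real.exp (2 * za (XX T c) ρ) / (1 + zb (XX T c) (t + u) ρ ^ 2))) with hF
  have hg0 : ∀ (ρ : ZS) (t : ℝ), 0 ≤ mx ρ * (if Real.log T * |(ρ : ℂ).re - 1 / 2| < Y then 0 else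
    Real.exp (2 * za (XX T c) ρ) / (1 + zb (XX T c) (t + u) ρ ^ 2)) := by
    intro ρ t
    refine mul_nonneg (mx_nonneg _) ?_
    split_ifs
    · exact le_rfl
    · positivity
  have hgc : ∀ ρ : ZS, Continuous fun t : ℝ => mx ρ * (if Real.log T * |(ρ : ℂ).re - 1 / 2| < Y then 0 else
    Real.exp (2 * za (XX T c) ρ) / (1 + zb (XX T c) (t + u) ρ ^ 2)) := by
    intro ρ
    refine continuous_const.mul ?_
    split_ifs
    · exact continuous_const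
    · unfold zb
      exact Continuous.div continuous_const (by fun_prop) fun t => by positivity
  have hgb : ∀ (ρ : ZS) (t : ℝ), ‖mx ρ * (if Real.log T * |(ρ : ℂ).re - 1 / 2| < Y then 0 else
    Real.exp (2 * za (XX T c) ρ) / (1 + zb (XX T c) (t + u) ρ ^ 2))‖ ≤ mx ρ * Real.exp (2 * za (XX T c) ρ) := by
    intro ρ t
    rw [Real.norm_eq_abs, abs_of_nonneg (hg0 ρ t)]
    refine mul_le_mul_of_nonneg_left ?_ (mx_nonneg _)
    split_ifs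
    · exact (Real.exp_pos _).le
    · exact div_le_self (Real.exp_pos _).le (by have := sq_nonneg (zb (XX T c) (t + u) ρ); linarith)
  have hwi : Integrable (wt T c v τ) := by
    refine i7.mono' (wt_cont hT0 c v τ).aestronglyMeasurable (ae_of_all _ fun t => ?_)
    rw [Real.norm_eq_abs, abs_of_nonneg (wt_nonneg hT0 c v τ t)]
    refine le_mul_of_one_le_right (wt_nonneg hT0 c v τ t) ?_
    have q1 : 3 ≤ Real.log T := hL3
    have q2 : Real.log T ≤ Real.log (4 + T + |t + u|) := Real.log_le_log hT0 (by have := abs_nonneg (t + u); linarith)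
    linarith
  have hFi : ∀ ρ, Integrable (F ρ) := fun ρ => hwi.mul_bdd (hgc ρ).aestronglyMeasurable (ae_of_all _ (hgb ρ))
  have hF0 : ∀ ρ t, 0 ≤ F ρ t := fun ρ t => mul_nonneg (wt_nonneg hT0 c v τ t) (hg0 ρ t)
  have hFm : ∀ ρ, Measurable (F ρ) := fun ρ => ((wt_cont hT0 c v τ).mul (hgc ρ)).measurable
  have hB : ∀ Z : Finset ZS, ∑ ρ ∈ Z, ∫ t, F ρ t ≤ VV T c v := by
    intro Z
    rw [← integral_finsetSum _ fun ρ _ => hFi ρ]
    refine (integral_mono (integrable_finsetSum _ fun ρ _ => hFi ρ) iM fun t => ?_).trans bM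
    obtain ⟨s1, s2⟩ := h7 T hT3 (XX T c) (by linarith) (t + u)
    have s3 := far_fin hch hT3 hcpos hY1 s1 Z
    have s4 : ∑ ρ ∈ Z, F ρ t = wt T c v τ t * ∑ ρ ∈ Z, mx ρ * (if Real.log T * |(ρ : ℂ).re - 1 / 2| < Y then 0 else
        Real.exp (2 * za (XX T c) ρ) / (1 + zb (XX T c) (t + u) ρ ^ 2)) := by
      rw [Finset.mul_sum]
    show ∑ ρ ∈ Z, F ρ t ≤ M t
    rw [s4]
    have s5 := wt_nonneg hT0 c v τ t
    have s6 := mul_le_mul_of_nonneg_left s2 (Real.exp_pos (XX T c)).le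
    calc wt T c v τ t * ∑ ρ ∈ Z, mx ρ * (if Real.log T * |(ρ : ℂ).re - 1 / 2| < Y then 0 else
          Real.exp (2 * za (XX T c) ρ) / (1 + zb (XX T c) (t + u) ρ ^ 2)) ≤
          wt T c v τ t * (2 * ∑ k ∈ IK T Y, LY C3 T c (2 ^ k * Y) (t + u) +
            Real.exp (XX T c) * (C7 * Real.log (4 + T + |t + u|) / T) +
            Real.exp (XX T c) * ∑' ρ : ZS, mx ρ * (if |(ρ : ℂ).re - 1 / 2| < 1 / 64 then 0 else
              1 / (1 + zb (XX T c) (t + u) ρ ^ 2))) := by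
          apply mul_le_mul_of_nonneg_left _ s5
          linarith
      _ = M t := by
          simp only [hM]
          rw [← Finset.mul_sum]
          ring
  obtain ⟨r1, r2⟩ := tsum_bound56 hF0 hFm hFi hB
  have hfar : (fun t => wt T c v τ t * far T c Y (t + u)) = fun t => ∑' ρ, F ρ t := by
    funext t
    unfold far
    rw [← tsum_mul_left]
  rw [hfar]
  exact ⟨r1, r2⟩

end Pool.Agent.Helper56.UG
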