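import Pool.Agent.Helper56.UG.FarA

/-!
# UG: block Z8 (`far_mean`), preliminaries for the means
-/

set_option autoImplicit false
open MeasureTheory Set Filter Topology
open Pool.Agent.Helper57.Zeta Pool.Agent.Helper57.LH Pool.Agent.Helper57.ED Pool.Agent.Helper54.LG
open Pool.Agent.Helper69.UG

namespace Pool.Agent.Helper56.UG

/-- infinite sums of nonnegative integrable functions -/
lemma tsum_bound56 {ι : Type*} [Countable ι] {F : ι → ℝ → ℝ} (hF0 : ∀ i t, 0 ≤ F i t)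
    (hFm : ∀ i, Measurable (F i)) (hFi : ∀ i, Integrable (F i)) {B : ℝ}
    (hB : ∀ Z : Finset ι, ∑ i ∈ Z, ∫ t, F i t ≤ B) :
    Integrable (fun t => ∑' i, F i t) ∧ ∫ t, ∑' i, F i t ≤ B := by
  have hB0 : 0 ≤ B := by simpa using hB ∅
  have e1 : (fun t => ∑' i, F i t) = fun t => (∑' i, ENNReal.ofReal (F i t)).toReal := by
    funext t
    rw [ENNReal.tsum_toReal_eq (fun i => ENNReal.ofReal_ne_top)]
    simp only [ENNReal.toReal_ofReal (hF0 _ _)]
  have hm : Measurable (fun t => ∑' i, ENNReal.ofReal (F i t)) :=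
    Measurable.tsum fun i => (hFm i).ennreal_ofReal
  have hl : ∫⁻ t, ∑' i, ENNReal.ofReal (F i t) ≤ ENNReal.ofReal B := by
    rw [lintegral_tsum fun i => (hFm i).ennreal_ofReal.aemeasurable]
    rw [ENNReal.tsum_eq_iSup_sum]
    refine iSup_le fun Z => ?_
    have e2 : ∀ i, ∫⁻ t, ENNReal.ofReal (F i t) = ENNReal.ofReal (∫ t, F i t) := by
      intro i
      rw [ofReal_integral_eq_lintegral_ofReal (hFi i) (ae_of_all _ (hF0 i))]
    simp only [e2]
    rw [← ENNReal.ofReal_sum_of_nonneg fun i _ => integral_nonneg (hF0 i)]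
    exact ENNReal.ofReal_le_ofReal (hB Z)
  have hne : ∫⁻ t, ∑' i, ENNReal.ofReal (F i t) ≠ ⊤ :=
    (hl.trans_lt ENNReal.ofReal_lt_top).ne
  rw [e1]
  refine ⟨integrable_toReal_of_lintegral_ne_top hm.aemeasurable hne, ?_⟩
  rw [integral_toReal hm.aemeasurable (ae_lt_top hm hne)]
  calc (∫⁻ t, ∑' i, ENNReal.ofReal (F i t)).toReal ≤ (ENNReal.ofReal B).toReal :=
        ENNReal.toReal_mono ENNReal.ofReal_ne_top hl
    _ = B := ENNReal.toReal_ofReal hB0

/-! ### the weights of the cells -/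

lemma sum_aj_nat (c : ℝ) (N : ℕ) : ∑ n ∈ Finset.range (N + 1), aj c (n : ℤ) ≤ 1 + 2 * c ^ 2 := by
  have h : ∀ N : ℕ, ∑ n ∈ Finset.range (N + 1 + 1), aj c (n : ℤ) ≤ 1 + c ^ 2 * (2 - 1 / ((N : ℝ) + 1)) := by
    intro N
    induction N with
    | zero =>
      rw [Finset.sum_range_succ, Finset.sum_range_one]
      unfold aj
      simp
      norm_num
    | succ N ih =>
      rw [Finset.sum_range_succ]
      have h1 : aj c ((N + 1 + 1 : ℕ) : ℤ) ≤ c ^ 2 * (1 / ((N : ℝ) + 1) - 1 / ((N : ℝ) + 1 + 1)) := by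
        unfold aj
        rw [if_neg (by exact_mod_cast (by omega : N + 1 + 1 ≠ 0))]
        push_cast
        rw [div_eq_mul_one_div]
        apply mul_le_mul_of_nonneg_left _ (sq_nonneg c)
        rw [div_sub_div _ _ (by positivity) (by positivity), div_le_div_iff₀ (by positivity) (by positivity)]
        nlinarith [(Nat.cast_nonneg N : (0 : ℝ) ≤ N)]
      have h2 : ((N + 1 : ℕ) : ℝ) = (N : ℝ) + 1 := by push_cast; ring
      rw [h2]
      linarith
  rcases N with _ | N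
  · simp only [zero_add, Finset.sum_range_one]
    unfold aj
    simp
    positivity
  · refine (h N).trans ?_
    have h1 : 0 ≤ 1 / ((N : ℝ) + 1) := by positivity
    nlinarith [sq_nonneg c]

lemma sum_aj (c : ℝ) (J : ℤ) : ∑ j ∈ Finset.Icc (-J) J, aj c j ≤ 2 + 4 * c ^ 2 := by
  classical
  have h1 : Finset.Icc (-J) J ⊆ (Finset.range (J.toNat + 1)).image (fun n : ℕ => (n : ℤ)) ∪
      (Finset.range (J.toNat + 1)).image (fun n : ℕ => -(n : ℤ)) := by
    intro j hj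
    obtain ⟨a, b⟩ := Finset.mem_Icc.1 hj
    rw [Finset.mem_union, Finset.mem_image, Finset.mem_image]
    rcases le_or_gt 0 j with h | h
    · left
      refine ⟨j.toNat, Finset.mem_range.2 (by omega), by omega⟩
    · right
      refine ⟨(-j).toNat, Finset.mem_range.2 (by omega), by omega⟩
  refine (Finset.sum_le_sum_of_subset_of_nonneg h1 fun j _ _ => aj_nonneg c j).trans ?_
  have h2 : ∀ A B : Finset ℤ, ∑ j ∈ A ∪ B, aj c j ≤ ∑ j ∈ A, aj c j + ∑ j ∈ B, aj c j := by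
    intro A B
    rw [← Finset.sum_union_inter]
    have : 0 ≤ ∑ j ∈ A ∩ B, aj c j := Finset.sum_nonneg fun j _ => aj_nonneg c j
    linarith
  refine (h2 _ _).trans ?_
  rw [Finset.sum_image (fun a _ b _ h => by exact_mod_cast h), Finset.sum_image (fun a _ b _ h => by
    have h' : -(a : ℤ) = -(b : ℤ) := h
    omega)]
  have h3 : ∀ n : ℕ, aj c (-(n : ℤ)) = aj c (n : ℤ) := by
    intro n
    unfold aj
    simp
  simp_rw [h3]
  have := sum_aj_nat c J.toNat
  linarith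

/-! ### the Poisson kernel against a slowly growing function -/

lemma plog_pt {W : ℝ} (hW : 0 < W) (x : ℝ) : PW W x * Real.sqrt (1 + |x| / W) ≤ 1 / W * (1 + ‖x / W‖) ^ (-(3 / 2 : ℝ)) := by
  have hpi := Real.pi_gt_three
  set y : ℝ := |x| / W with hy
  have hy0 : 0 ≤ y := by positivity
  have hn : ‖x / W‖ = y := by rw [Real.norm_eq_abs, abs_div, abs_of_pos hW]
  have hP : PW W x = 1 / W * (1 / (Real.pi * (1 + y ^ 2))) := by
    unfold PW
    rw [hy, div_pow, sq_abs]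
    field_simp
  have h1 : 1 / (Real.pi * (1 + y ^ 2)) ≤ 1 / (1 + y) ^ 2 := by
    rw [div_le_div_iff₀ (by positivity) (by positivity)]
    nlinarith [sq_nonneg (1 - y), sq_nonneg y]
  have h2 : 1 / (1 + y) ^ 2 * Real.sqrt (1 + y) = (1 + y) ^ (-(3 / 2 : ℝ)) := by
    rw [Real.sqrt_eq_rpow, ← Real.rpow_natCast (1 + y) 2, one_div, ← Real.rpow_neg (by positivity), ← Real.rpow_add (by positivity)]
    norm_num
  rw [hn, hP, mul_assoc]
  apply mul_le_mul_of_nonneg_left _ (by positivity)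
  rw [← h2]
  exact mul_le_mul_of_nonneg_right h1 (Real.sqrt_nonneg _)

lemma plog : ∃ I0 : ℝ, 0 < I0 ∧ ∀ W τ : ℝ, 0 < W → Integrable (fun t => PW W (t - τ) * Real.sqrt (1 + |t - τ| / W)) ∧
    ∫ t, PW W (t - τ) * Real.sqrt (1 + |t - τ| / W) ≤ I0 := by
  have hI : Integrable (fun x : ℝ => (1 + ‖x‖) ^ (-(3 / 2 : ℝ))) := integrable_one_add_norm (by simp; norm_num)
  have hI0 : 0 ≤ ∫ x : ℝ, (1 + ‖x‖) ^ (-(3 / 2 : ℝ)) := integral_nonneg fun x => by positivity
  refine ⟨(∫ x : ℝ, (1 + ‖x‖) ^ (-(3 / 2 : ℝ))) + 1, by linarith, fun W τ hW => ?_⟩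
  have h1 : Integrable (fun x : ℝ => 1 / W * (1 + ‖x / W‖) ^ (-(3 / 2 : ℝ))) := (hI.comp_div hW.ne').const_mul _
  have h2 : Integrable (fun t : ℝ => 1 / W * (1 + ‖(t - τ) / W‖) ^ (-(3 / 2 : ℝ))) := h1.comp_sub_right τ
  have hc : Continuous fun t : ℝ => PW W (t - τ) * Real.sqrt (1 + |t - τ| / W) := by
    have hpi := Real.pi_pos
    unfold PW
    refine Continuous.mul (Continuous.div continuous_const (by fun_prop) fun t => by positivity) (by fun_prop)
  have hle : ∀ t : ℝ, PW W (t - τ) * Real.sqrt (1 + |t - τ| / W) ≤ 1 / W * (1 + ‖(t - τ) / W‖) ^ (-(3 / 2 : ℝ)) :=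
    fun t => plog_pt hW (t - τ)
  have h0 : ∀ t : ℝ, 0 ≤ PW W (t - τ) * Real.sqrt (1 + |t - τ| / W) := fun t => mul_nonneg (PW_pos hW _).le (Real.sqrt_nonneg _)
  have h3 : Integrable (fun t => PW W (t - τ) * Real.sqrt (1 + |t - τ| / W)) :=
    h2.mono' hc.aestronglyMeasurable (ae_of_all _ fun t => by
      rw [Real.norm_eq_abs, abs_of_nonneg (h0 t)]
      exact hle t)
  refine ⟨h3, (integral_mono h3 h2 hle).trans ?_⟩
  have h4 : ∫ t : ℝ, 1 / W * (1 + ‖(t - τ) / W‖) ^ (-(3 / 2 : ℝ)) = ∫ x : ℝ, (1 + ‖x‖) ^ (-(3 / 2 : ℝ)) := by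
    rw [integral_sub_right_eq_self (fun x : ℝ => 1 / W * (1 + ‖x / W‖) ^ (-(3 / 2 : ℝ))) τ, integral_const_mul,
      Measure.integral_comp_div (fun x : ℝ => (1 + ‖x‖) ^ (-(3 / 2 : ℝ))) W, abs_of_pos hW, smul_eq_mul, ← mul_assoc,
      one_div_mul_cancel hW.ne', one_mul]
  rw [h4]
  linarith

/-! ### the weight -/

lemma RR_cont (T c v : ℝ) : Continuous (RR T c v) := by
  unfold RR
  refine continuous_finsetSum _ fun n hn => ?_
  have hn1 : 1 ≤ n := (Finset.mem_Icc.1 hn).1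
  refine continuous_const.mul (Continuous.const_cpow (by fun_prop) (Or.inl (by exact_mod_cast (by omega : n ≠ 0))))

lemma WW_pos {T : ℝ} (hT : 0 < T) : 0 < WW T := Real.rpow_pos_of_pos hT _

lemma wt_cont {T : ℝ} (hT : 0 < T) (c v τ : ℝ) : Continuous (wt T c v τ) := by
  unfold wt
  have hpi := Real.pi_pos
  have hW := WW_pos hT
  refine Continuous.mul ?_ ((RR_cont T c v).norm.pow 2)
  unfold PW
  exact Continuous.div continuous_const (by fun_prop) fun t => by positivity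

lemma wt_nonneg {T : ℝ} (hT : 0 < T) (c v τ t : ℝ) : 0 ≤ wt T c v τ t := by
  unfold wt
  exact mul_nonneg (PW_pos (WW_pos hT) _).le (by positivity)

lemma norm_RR_le {T c v B : ℝ} (hB : ∀ n, |rr T c v n| ≤ B) (t : ℝ) : ‖RR T c v t‖ ≤ NR T * B := by
  unfold RR
  have h0 : 0 ≤ B := (abs_nonneg _).trans (hB 0)
  refine (norm_sum_le _ _).trans ?_
  have h1 : ∀ n ∈ Finset.Icc 1 (NR T), ‖(rr T c v n : ℂ) * (n : ℂ) ^ (-((1 / 2 : ℂ) + (t : ℂ) * Complex.I))‖ ≤ B := by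
    intro n hn
    have hn1 : 1 ≤ n := (Finset.mem_Icc.1 hn).1
    rw [norm_mul, Complex.norm_real, Real.norm_eq_abs, Complex.norm_natCast_cpow_of_pos (by omega)]
    have h2 : (-((1 / 2 : ℂ) + (t : ℂ) * Complex.I)).re = -(1 / 2) := by simp
    rw [h2]
    have h3 : (n : ℝ) ^ (-(1 / 2) : ℝ) ≤ 1 := by
      apply Real.rpow_le_one_of_one_le_of_nonpos (by exact_mod_cast hn1) (by norm_num)
    calc |rr T c v n| * (n : ℝ) ^ (-(1 / 2) : ℝ) ≤ B * 1 := mul_le_mul (hB n) h3 (by positivity) h0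
      _ = B := mul_one B
  refine (Finset.sum_le_sum h1).trans ?_
  rw [Finset.sum_const, nsmul_eq_mul, Nat.card_Icc, Nat.add_sub_cancel]

/-- the mean of the logarithm under the weight -/
lemma wt_log : ∃ I1 : ℝ, 0 < I1 ∧ ∀ T c v τ u B : ℝ, 1 ≤ T → (∀ n, |rr T c v n| ≤ B) → |τ| ≤ 2 * T → |u| ≤ T / 4 →
    Integrable (fun t => wt T c v τ t * Real.log (4 + T + |t + u|)) ∧
    ∫ t, wt T c v τ t * Real.log (4 + T + |t + u|) ≤ I1 * (NR T * B) ^ 2 * Real.sqrt T := by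
  obtain ⟨I0, hI0, h⟩ := plog
  refine ⟨6 * I0, by positivity, fun T c v τ u B hT hB hτ hu => ?_⟩
  have hT0 : 0 < T := by linarith
  have hW := WW_pos hT0
  have hWT : WW T ≤ T := by
    unfold WW
    calc T ^ (4095 / 4096 : ℝ) ≤ T ^ (1 : ℝ) := Real.rpow_le_rpow_of_exponent_le hT (by norm_num)
      _ = T := Real.rpow_one T
  obtain ⟨hi, hb⟩ := h (WW T) τ hW
  have hpt : ∀ t : ℝ, Real.log (4 + T + |t + u|) ≤ 6 * Real.sqrt T * Real.sqrt (1 + |t - τ| / WW T) := by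
    intro t
    have a1 : |t + u| ≤ |t - τ| + |τ| + |u| := by
      calc |t + u| = |(t - τ) + τ + u| := by ring_nf
        _ ≤ |(t - τ) + τ| + |u| := abs_add_le _ _
        _ ≤ |t - τ| + |τ| + |u| := by linarith [abs_add_le (t - τ) τ]
    have a2 : |t - τ| ≤ T * (|t - τ| / WW T) := by
      rw [mul_div_assoc', le_div_iff₀ hW, mul_comm]
      exact mul_le_mul_of_nonneg_right hWT (abs_nonneg _)
    have a3 : 4 + T + |t + u| ≤ 9 * T * (1 + |t - τ| / WW T) := by
      have a4 : 0 ≤ T * (|t - τ| / WW T) := by positivity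
      nlinarith
    have a5 : 0 < 4 + T + |t + u| := by positivity
    have a6 : Real.log (4 + T + |t + u|) ≤ 2 * Real.sqrt (4 + T + |t + u|) := by
      have a7 : Real.log (Real.sqrt (4 + T + |t + u|)) ≤ Real.sqrt (4 + T + |t + u|) - 1 :=
        Real.log_le_sub_one_of_pos (Real.sqrt_pos.2 a5)
      rw [Real.log_sqrt a5.le] at a7
      linarith
    refine a6.trans ?_
    have a8 : Real.sqrt (4 + T + |t + u|) ≤ 3 * Real.sqrt T * Real.sqrt (1 + |t - τ| / WW T) := by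
      calc Real.sqrt (4 + T + |t + u|) ≤ Real.sqrt (9 * T * (1 + |t - τ| / WW T)) := Real.sqrt_le_sqrt a3
        _ = Real.sqrt (9 * T) * Real.sqrt (1 + |t - τ| / WW T) := Real.sqrt_mul (by positivity) _
        _ = 3 * Real.sqrt T * Real.sqrt (1 + |t - τ| / WW T) := by
            rw [Real.sqrt_mul (by norm_num) T, show (9 : ℝ) = 3 ^ 2 by norm_num, Real.sqrt_sq (by norm_num)]
    linarith
  have hlog0 : ∀ t : ℝ, 0 ≤ Real.log (4 + T + |t + u|) := fun t => Real.log_nonneg (by have := abs_nonneg (t + u); linarith)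
  have hB0 : 0 ≤ B := (abs_nonneg _).trans (hB 0)
  have hle : ∀ t : ℝ, wt T c v τ t * Real.log (4 + T + |t + u|) ≤
      (6 * (NR T * B) ^ 2 * Real.sqrt T) * (PW (WW T) (t - τ) * Real.sqrt (1 + |t - τ| / WW T)) := by
    intro t
    have b1 : ‖RR T c v t‖ ^ 2 ≤ (NR T * B) ^ 2 := pow_le_pow_left₀ (norm_nonneg _) (norm_RR_le hB t) 2
    have b2 := (PW_pos hW (t - τ)).le
    unfold wt
    calc PW (WW T) (t - τ) * ‖RR T c v t‖ ^ 2 * Real.log (4 + T + |t + u|) ≤
          PW (WW T) (t - τ) * (NR T * B) ^ 2 * (6 * Real.sqrt T * Real.sqrt (1 + |t - τ| / WW T)) :=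
          mul_le_mul (mul_le_mul_of_nonneg_left b1 b2) (hpt t) (hlog0 t) (by positivity)
      _ = _ := by ring
  have hcont : Continuous fun t : ℝ => wt T c v τ t * Real.log (4 + T + |t + u|) := by
    refine (wt_cont hT0 c v τ).mul (Continuous.log (by fun_prop) fun t => ?_)
    have := abs_nonneg (t + u)
    positivity
  have hI : Integrable (fun t => wt T c v τ t * Real.log (4 + T + |t + u|)) :=
    (hi.const_mul (6 * (NR T * B) ^ 2 * Real.sqrt T)).mono' hcont.aestronglyMeasurable (ae_of_all _ fun t => by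
      rw [Real.norm_eq_abs, abs_of_nonneg (mul_nonneg (wt_nonneg hT0 c v τ t) (hlog0 t))]
      exact hle t)
  refine ⟨hI, (integral_mono hI (hi.const_mul _) hle).trans ?_⟩
  rw [integral_const_mul]
  calc 6 * (NR T * B) ^ 2 * Real.sqrt T * ∫ t, PW (WW T) (t - τ) * Real.sqrt (1 + |t - τ| / WW T) ≤
        6 * (NR T * B) ^ 2 * Real.sqrt T * I0 := mul_le_mul_of_nonneg_left hb (by positivity)
    _ = _ := by ring

end Pool.Agent.Helper56.UG
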