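import Pool.Agent.Helper49.UG.Ch3
import Pool.Agent.Helper54.LG.Pt

/-!
# UG: block Z8 (`far_mean`), pointwise part: the zeros off the line are distributed over cells
-/

set_option autoImplicit false
open MeasureTheory Set Filter Topology
open Pool.Agent.Helper57.Zeta Pool.Agent.Helper57.LH Pool.Agent.Helper57.ED Pool.Agent.Helper54.LG
open Pool.Agent.Helper69.UG

namespace Pool.Agent.Helper56.UG

/-- the majorant in one cell -/
noncomputable def HC (C T c y : ℝ) (K : ℕ) (s : ℝ) : ℝ := GY T c y K s + C * (Real.log (4 + |s|) * cen T c y (K - 1) s)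

/-- the number of circles -/
noncomputable def Kc (T y : ℝ) : ℕ := Nat.log 2 ⌊Real.log T / (16 * y)⌋₊

/-- the weight of the cell `j` -/
noncomputable def aj (c : ℝ) (j : ℤ) : ℝ := if j = 0 then 1 else c ^ 2 / (j : ℝ) ^ 2

/-- the number of cells -/
noncomputable def Jc (T y : ℝ) : ℤ := ⌈T * Real.log T / (4 * y)⌉ + 1

/-- the cells of one layer -/
noncomputable def LY (C T c y s : ℝ) : ℝ :=
  Real.exp (4 * y / c) * ∑ j ∈ Finset.Icc (-(Jc T y)) (Jc T y), aj c j * HC C T c y (Kc T y) (s + 2 * j * y / Real.log T)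

open Classical in
/-- the layers -/
noncomputable def IK (T Y : ℝ) : Finset ℕ := (Finset.range (⌈Real.log T⌉₊ + 1)).filter fun k => 2 ^ k * Y ≤ Real.log T / 64

lemma HC_nonneg {C T c y : ℝ} (hC : 0 ≤ C) (K : ℕ) (s : ℝ) : 0 ≤ HC C T c y K s := by
  unfold HC
  have h1 := GY_nonneg T c y K s
  have h2 := cen_nonneg T c y (K - 1) s
  have h3 : 0 ≤ Real.log (4 + |s|) := Real.log_nonneg (by have := abs_nonneg s; linarith)
  positivity

lemma aj_nonneg (c : ℝ) (j : ℤ) : 0 ≤ aj c j := by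
  unfold aj
  split_ifs
  · norm_num
  · positivity

lemma Kc_spec {T y : ℝ} (hy : 0 < y) (hyT : y ≤ Real.log T / 64) :
    1 ≤ Kc T y ∧ 4 * 2 ^ (Kc T y) * y ≤ Real.log T / 4 ∧ Real.log T / 4 < 8 * 2 ^ (Kc T y) * y := by
  set x : ℝ := Real.log T / (16 * y) with hx
  have hx4 : 4 ≤ x := by
    rw [hx, le_div_iff₀ (by positivity)]
    linarith
  have hfl : 4 ≤ ⌊x⌋₊ := Nat.le_floor (by exact_mod_cast hx4)
  have h1 : 2 ^ (Nat.log 2 ⌊x⌋₊) ≤ ⌊x⌋₊ := Nat.pow_log_le_self 2 (by omega)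
  have h2 : ⌊x⌋₊ < 2 ^ (Nat.log 2 ⌊x⌋₊ + 1) := Nat.lt_pow_succ_log_self (by norm_num) _
  have h3 : (2 : ℝ) ^ (Nat.log 2 ⌊x⌋₊) ≤ x := by
    refine le_trans ?_ (Nat.floor_le (by linarith))
    exact_mod_cast h1
  have h4 : x < 2 ^ (Nat.log 2 ⌊x⌋₊ + 1) := by
    have h5 : (⌊x⌋₊ : ℝ) + 1 ≤ 2 ^ (Nat.log 2 ⌊x⌋₊ + 1) := by exact_mod_cast h2
    exact lt_of_lt_of_le (Nat.lt_floor_add_one x) h5
  have hK : Kc T y = Nat.log 2 ⌊x⌋₊ := rfl
  rw [hK]
  rw [hx, le_div_iff₀ (by positivity), ← hx] at h3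
  have h6 : x * (16 * y) = Real.log T := by
    rw [hx]
    field_simp
  refine ⟨?_, ?_, ?_⟩
  · exact Nat.le_log_of_pow_le (by norm_num) (by omega)
  · linarith
  · rw [pow_succ] at h4
    have h7 : x * (16 * y) < 2 ^ Nat.log 2 ⌊x⌋₊ * 2 * (16 * y) := mul_lt_mul_of_pos_right h4 (by positivity)
    rw [h6] at h7
    linarith

/-- one layer -/
theorem layer {C : ℝ} (hch : ∀ T : ℝ, 3 ≤ T → ∀ c y : ℝ, 0 < y → ∀ K : ℕ, 1 ≤ K → 4 * 2 ^ K * y ≤ Real.log T / 4 →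
    ∀ (t : ℝ) (Z : Finset ZS),
    (∀ ρ ∈ Z, y ≤ Real.log T * ((ρ : ℂ).re - 1 / 2) ∧ Real.log T * ((ρ : ℂ).re - 1 / 2) ≤ 2 * y ∧
      |(ρ : ℂ).im - t| ≤ y / Real.log T) →
    ∑ ρ ∈ Z, mx ρ ≤ GY T c y K t + C / 2 * Real.log (4 + |t|) * (2 * cen T c y (K - 1) t))
    {T c y s : ℝ} (hT : 3 ≤ T) (hc : 0 < c) (hy1 : 1 ≤ y) (hyT : y ≤ Real.log T / 64) (Z : Finset ZS)
    (hZ : ∀ ρ ∈ Z, y ≤ Real.log T * ((ρ : ℂ).re - 1 / 2) ∧ Real.log T * ((ρ : ℂ).re - 1 / 2) ≤ 2 * y ∧ |(ρ : ℂ).im - s| ≤ T / 2) :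
    ∑ ρ ∈ Z, mx ρ * (Real.exp (2 * za (XX T c) ρ) / (1 + zb (XX T c) s ρ ^ 2)) ≤ LY C T c y s := by
  classical
  have hy : 0 < y := by linarith
  have hL : 0 < Real.log T := Real.log_pos (by linarith)
  obtain ⟨k1, k2, k3⟩ := Kc_spec hy hyT
  set L := Real.log T with hLd
  set jf : ZS → ℤ := fun ρ => round (((ρ : ℂ).im - s) * L / (2 * y)) with hjf
  have hround : ∀ ρ : ZS, |(ρ : ℂ).im - s - 2 * (jf ρ : ℝ) * y / L| ≤ y / L := by
    intro ρ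
    have h1 := abs_sub_round (((ρ : ℂ).im - s) * L / (2 * y))
    have h2 : (ρ : ℂ).im - s - 2 * (jf ρ : ℝ) * y / L = (((ρ : ℂ).im - s) * L / (2 * y) - (jf ρ : ℝ)) * (2 * y / L) := by
      field_simp
    rw [h2, abs_mul, abs_of_pos (by positivity : 0 < 2 * y / L)]
    calc |((ρ : ℂ).im - s) * L / (2 * y) - (jf ρ : ℝ)| * (2 * y / L) ≤ 1 / 2 * (2 * y / L) := by
          apply mul_le_mul_of_nonneg_right h1 (by positivity)
      _ = y / L := by ring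
  have hmaps : ∀ ρ ∈ Z, jf ρ ∈ Finset.Icc (-(Jc T y)) (Jc T y) := by
    intro ρ hρ
    have h1 := (hZ ρ hρ).2.2
    have h2 := hround ρ
    have h3 : |2 * (jf ρ : ℝ) * y / L| ≤ T / 2 + y / L := by
      have h4 : 2 * (jf ρ : ℝ) * y / L = ((ρ : ℂ).im - s) - ((ρ : ℂ).im - s - 2 * (jf ρ : ℝ) * y / L) := by ring
      rw [h4]
      exact (abs_sub _ _).trans (add_le_add h1 h2)
    have h4 : |(jf ρ : ℝ)| ≤ T * L / (4 * y) + 1 := by
      have h5 : |2 * (jf ρ : ℝ) * y / L| = |(jf ρ : ℝ)| * (2 * y / L) := by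
        rw [show 2 * (jf ρ : ℝ) * y / L = (jf ρ : ℝ) * (2 * y / L) by ring, abs_mul, abs_of_pos (by positivity : 0 < 2 * y / L)]
      rw [h5] at h3
      have h6 : T / 2 + y / L ≤ (T * L / (4 * y) + 1) * (2 * y / L) := by
        have h7 : (T * L / (4 * y) + 1) * (2 * y / L) = T / 2 + 2 * (y / L) := by
          field_simp
          ring
        rw [h7]
        have : 0 < y / L := by positivity
        linarith
      exact le_of_mul_le_mul_right (h3.trans h6) (by positivity)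
    have h5 : |(jf ρ : ℝ)| ≤ ((Jc T y : ℤ) : ℝ) := by
      unfold Jc
      push_cast
      have := Int.le_ceil (T * Real.log T / (4 * y))
      linarith
    have h6 := abs_le.1 h5
    rw [Finset.mem_Icc]
    constructor
    · exact_mod_cast h6.1
    · exact_mod_cast h6.2
  have hX : XX T c = L / c := rfl
  -- the value in one cell
  have hval : ∀ ρ ∈ Z, mx ρ * (Real.exp (2 * za (XX T c) ρ) / (1 + zb (XX T c) s ρ ^ 2)) ≤
      mx ρ * (Real.exp (4 * y / c) * aj c (jf ρ)) := by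
    intro ρ hρ
    obtain ⟨h1, h2, h3⟩ := hZ ρ hρ
    refine mul_le_mul_of_nonneg_left ?_ (mx_nonneg _)
    have hza : 2 * za (XX T c) ρ ≤ 4 * y / c := by
      unfold za
      have h4 : 0 < (ρ : ℂ).re - 1 / 2 := by
        by_contra hcon
        push Not at hcon
        have : L * ((ρ : ℂ).re - 1 / 2) ≤ 0 := mul_nonpos_of_nonneg_of_nonpos hL.le hcon
        linarith
      rw [abs_of_pos h4, hX]
      have h5 : 2 * (L / c * ((ρ : ℂ).re - 1 / 2)) = 2 * (L * ((ρ : ℂ).re - 1 / 2)) / c := by ring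
      rw [h5]
      exact div_le_div_of_nonneg_right (by linarith) hc.le
    have hw : 1 / (1 + zb (XX T c) s ρ ^ 2) ≤ aj c (jf ρ) := by
      unfold aj
      split_ifs with hj
      · rw [div_le_one (by positivity)]
        have := sq_nonneg (zb (XX T c) s ρ)
        linarith
      · have hj1 : (1 : ℝ) ≤ |(jf ρ : ℝ)| := by
          have : 1 ≤ |jf ρ| := Int.one_le_abs hj
          exact_mod_cast this
        have hj0 : (0 : ℝ) < (jf ρ : ℝ) ^ 2 := by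
          rw [← sq_abs]
          positivity
        have h4 : |(jf ρ : ℝ)| / c ≤ |zb (XX T c) s ρ| := by
          unfold zb
          rw [hX, abs_mul, abs_of_pos (by positivity : 0 < L / c)]
          have h5 := hround ρ
          have h6 : |2 * (jf ρ : ℝ) * y / L| - y / L ≤ |s - (ρ : ℂ).im| := by
            have h7 : |2 * (jf ρ : ℝ) * y / L| ≤ |s - (ρ : ℂ).im| + |(ρ : ℂ).im - s - 2 * (jf ρ : ℝ) * y / L| := by
              have h8 : 2 * (jf ρ : ℝ) * y / L = -(s - (ρ : ℂ).im) - ((ρ : ℂ).im - s - 2 * (jf ρ : ℝ) * y / L) := by ring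
              calc |2 * (jf ρ : ℝ) * y / L| = |-(s - (ρ : ℂ).im) - ((ρ : ℂ).im - s - 2 * (jf ρ : ℝ) * y / L)| := by rw [← h8]
                _ ≤ |-(s - (ρ : ℂ).im)| + |(ρ : ℂ).im - s - 2 * (jf ρ : ℝ) * y / L| := abs_sub _ _
                _ = _ := by rw [abs_neg]
            linarith
          have h7 : |2 * (jf ρ : ℝ) * y / L| = 2 * |(jf ρ : ℝ)| * (y / L) := by
            rw [show 2 * (jf ρ : ℝ) * y / L = 2 * (jf ρ : ℝ) * (y / L) by ring, abs_mul, abs_of_pos (by positivity : 0 < y / L), abs_mul]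
            norm_num
          rw [h7] at h6
          have h8 : |(jf ρ : ℝ)| * (y / L) ≤ |s - (ρ : ℂ).im| := by
            have h9 : y / L ≤ |(jf ρ : ℝ)| * (y / L) := le_mul_of_one_le_left (by positivity) hj1
            linarith
          calc |(jf ρ : ℝ)| / c ≤ y * (|(jf ρ : ℝ)| / c) := le_mul_of_one_le_left (by positivity) hy1
            _ = L / c * (|(jf ρ : ℝ)| * (y / L)) := by field_simp
            _ ≤ L / c * |s - (ρ : ℂ).im| := mul_le_mul_of_nonneg_left h8 (by positivity)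
        have h5 : (jf ρ : ℝ) ^ 2 / c ^ 2 ≤ zb (XX T c) s ρ ^ 2 := by
          rw [← div_pow, ← sq_abs, ← sq_abs (zb (XX T c) s ρ), abs_div, abs_of_pos hc]
          exact pow_le_pow_left₀ (by positivity) h4 2
        rw [div_le_div_iff₀ (by positivity) hj0]
        rw [div_le_iff₀ (by positivity)] at h5
        nlinarith [sq_nonneg c]
    calc Real.exp (2 * za (XX T c) ρ) / (1 + zb (XX T c) s ρ ^ 2) =
          Real.exp (2 * za (XX T c) ρ) * (1 / (1 + zb (XX T c) s ρ ^ 2)) := by ring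
      _ ≤ Real.exp (4 * y / c) * aj c (jf ρ) := mul_le_mul (Real.exp_le_exp.2 hza) hw (by positivity) (Real.exp_pos _).le
  refine (Finset.sum_le_sum hval).trans ?_
  rw [← Finset.sum_fiberwise_of_maps_to hmaps, LY, Finset.mul_sum]
  refine Finset.sum_le_sum fun j _ => ?_
  have h1 : ∑ ρ ∈ Z.filter (fun ρ => jf ρ = j), mx ρ * (Real.exp (4 * y / c) * aj c (jf ρ)) =
      (∑ ρ ∈ Z.filter (fun ρ => jf ρ = j), mx ρ) * (Real.exp (4 * y / c) * aj c j) := by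
    rw [Finset.sum_mul]
    refine Finset.sum_congr rfl fun ρ hρ => ?_
    rw [(Finset.mem_filter.1 hρ).2]
  rw [h1]
  have h2 := hch T hT c y hy (Kc T y) k1 k2 (s + 2 * j * y / L) (Z.filter (fun ρ => jf ρ = j)) (by
    intro ρ hρ
    obtain ⟨a, b⟩ := Finset.mem_filter.1 hρ
    obtain ⟨c1, c2, _⟩ := hZ ρ a
    refine ⟨c1, c2, ?_⟩
    have h3 := hround ρ
    rw [b] at h3
    rw [show (ρ : ℂ).im - (s + 2 * (j : ℝ) * y / L) = (ρ : ℂ).im - s - 2 * (j : ℝ) * y / L by ring]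
    exact h3)
  have h3 : (∑ ρ ∈ Z.filter (fun ρ => jf ρ = j), mx (ρ : ℂ)) ≤ HC C T c y (Kc T y) (s + 2 * j * y / L) := by
    refine h2.trans (le_of_eq ?_)
    unfold HC
    ring
  calc (∑ ρ ∈ Z.filter (fun ρ => jf ρ = j), mx (ρ : ℂ)) * (Real.exp (4 * y / c) * aj c j) ≤
        HC C T c y (Kc T y) (s + 2 * j * y / L) * (Real.exp (4 * y / c) * aj c j) :=
        mul_le_mul_of_nonneg_right h3 (mul_nonneg (Real.exp_pos _).le (aj_nonneg _ _))
    _ = _ := by ring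

/-- all layers, zeros to the right of the line -/
theorem layers {C : ℝ} (hch : ∀ T : ℝ, 3 ≤ T → ∀ c y : ℝ, 0 < y → ∀ K : ℕ, 1 ≤ K → 4 * 2 ^ K * y ≤ Real.log T / 4 →
    ∀ (t : ℝ) (Z : Finset ZS),
    (∀ ρ ∈ Z, y ≤ Real.log T * ((ρ : ℂ).re - 1 / 2) ∧ Real.log T * ((ρ : ℂ).re - 1 / 2) ≤ 2 * y ∧
      |(ρ : ℂ).im - t| ≤ y / Real.log T) →
    ∑ ρ ∈ Z, mx ρ ≤ GY T c y K t + C / 2 * Real.log (4 + |t|) * (2 * cen T c y (K - 1) t))
    {T c Y s : ℝ} (hT : 3 ≤ T) (hc : 0 < c) (hY1 : 1 ≤ Y) (Z : Finset ZS)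
    (hZ : ∀ ρ ∈ Z, Y ≤ Real.log T * ((ρ : ℂ).re - 1 / 2) ∧ (ρ : ℂ).re - 1 / 2 < 1 / 64 ∧ |(ρ : ℂ).im - s| ≤ T / 2) :
    ∑ ρ ∈ Z, mx ρ * (Real.exp (2 * za (XX T c) ρ) / (1 + zb (XX T c) s ρ ^ 2)) ≤ ∑ k ∈ IK T Y, LY C T c (2 ^ k * Y) s := by
  classical
  have hY : 0 < Y := by linarith
  have hL : 0 < Real.log T := Real.log_pos (by linarith)
  set kf : ZS → ℕ := fun ρ => Nat.log 2 ⌊Real.log T * ((ρ : ℂ).re - 1 / 2) / Y⌋₊ with hkf
  have hk : ∀ ρ ∈ Z, 2 ^ kf ρ * Y ≤ Real.log T * ((ρ : ℂ).re - 1 / 2) ∧ Real.log T * ((ρ : ℂ).re - 1 / 2) ≤ 2 * (2 ^ kf ρ * Y) := by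
    intro ρ hρ
    have h0 := (hZ ρ hρ).1
    set x : ℝ := Real.log T * ((ρ : ℂ).re - 1 / 2) / Y with hx
    have hx1 : 1 ≤ x := by
      rw [hx, le_div_iff₀ hY]
      linarith
    have hxY : x * Y = Real.log T * ((ρ : ℂ).re - 1 / 2) := by
      rw [hx]
      field_simp
    have hfl : 1 ≤ ⌊x⌋₊ := Nat.le_floor (by exact_mod_cast hx1)
    have h1 : 2 ^ (Nat.log 2 ⌊x⌋₊) ≤ ⌊x⌋₊ := Nat.pow_log_le_self 2 (by omega)
    have h2 : ⌊x⌋₊ < 2 ^ (Nat.log 2 ⌊x⌋₊ + 1) := Nat.lt_pow_succ_log_self (by norm_num) _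
    have h3 : (2 : ℝ) ^ (Nat.log 2 ⌊x⌋₊) ≤ x := by
      refine le_trans ?_ (Nat.floor_le (by linarith))
      exact_mod_cast h1
    have h4 : x < 2 ^ (Nat.log 2 ⌊x⌋₊ + 1) := by
      have h5 : (⌊x⌋₊ : ℝ) + 1 ≤ 2 ^ (Nat.log 2 ⌊x⌋₊ + 1) := by exact_mod_cast h2
      exact lt_of_lt_of_le (Nat.lt_floor_add_one x) h5
    have hkx : kf ρ = Nat.log 2 ⌊x⌋₊ := rfl
    rw [hkx, ← hxY]
    constructor
    · exact mul_le_mul_of_nonneg_right h3 hY.le
    · rw [pow_succ] at h4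
      have := mul_le_mul_of_nonneg_right h4.le hY.le
      linarith
  have hmaps : ∀ ρ ∈ Z, kf ρ ∈ IK T Y := by
    intro ρ hρ
    obtain ⟨h1, _⟩ := hk ρ hρ
    have h2 : 2 ^ kf ρ * Y ≤ Real.log T / 64 := by
      refine h1.trans ?_
      have := (hZ ρ hρ).2.1
      nlinarith
    unfold IK
    refine Finset.mem_filter.2 ⟨Finset.mem_range.2 ?_, h2⟩
    have h3 : (kf ρ : ℝ) < 2 ^ kf ρ := by exact_mod_cast Nat.lt_two_pow_self
    have h4 : (2 : ℝ) ^ kf ρ ≤ 2 ^ kf ρ * Y := le_mul_of_one_le_right (by positivity) hY1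
    have h5 : (kf ρ : ℝ) < ⌈Real.log T⌉₊ := lt_of_lt_of_le (by linarith) (Nat.le_ceil _)
    have h6 : kf ρ < ⌈Real.log T⌉₊ := by exact_mod_cast h5
    omega
  rw [← Finset.sum_fiberwise_of_maps_to hmaps]
  refine Finset.sum_le_sum fun k hkI => ?_
  have hkI2 : 2 ^ k * Y ≤ Real.log T / 64 := by
    unfold IK at hkI
    exact (Finset.mem_filter.1 hkI).2
  have h1k : (1 : ℝ) ≤ 2 ^ k := one_le_pow₀ (by norm_num)
  refine layer hch hT hc (by nlinarith) hkI2 _ fun ρ hρ => ?_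
  obtain ⟨a, b⟩ := Finset.mem_filter.1 hρ
  obtain ⟨h1, h2⟩ := hk ρ a
  rw [b] at h1 h2
  exact ⟨h1, h2, (hZ ρ a).2.2⟩

lemma zs_re56 (ρ : ZS) : 0 ≤ (ρ : ℂ).re ∧ (ρ : ℂ).re ≤ 1 := by
  have h := zs_re ρ
  exact ⟨h.1.le, h.2.le⟩

lemma two_za_le {X : ℝ} (hX : 0 < X) (ρ : ZS) : 2 * za X ρ ≤ X := by
  obtain ⟨h1, h2⟩ := zs_re56 ρ
  have h3 : |(ρ:ℂ).re - 1 / 2| ≤ 1 / 2 := abs_le.mpr ⟨by linarith, by linarith⟩
  unfold za
  nlinarith

open Classical in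
/-- the pointwise bound, finite sets of zeros -/
theorem far_fin {C : ℝ} (hch : ∀ T : ℝ, 3 ≤ T → ∀ c y : ℝ, 0 < y → ∀ K : ℕ, 1 ≤ K → 4 * 2 ^ K * y ≤ Real.log T / 4 →
    ∀ (t : ℝ) (Z : Finset ZS),
    (∀ ρ ∈ Z, y ≤ Real.log T * ((ρ : ℂ).re - 1 / 2) ∧ Real.log T * ((ρ : ℂ).re - 1 / 2) ≤ 2 * y ∧
      |(ρ : ℂ).im - t| ≤ y / Real.log T) →
    ∑ ρ ∈ Z, mx ρ ≤ GY T c y K t + C / 2 * Real.log (4 + |t|) * (2 * cen T c y (K - 1) t))
    {T c Y s : ℝ} (hT : 3 ≤ T) (hc : 0 < c) (hY1 : 1 ≤ Y)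
    (hsum : Summable (fun ρ : ZS => mx ρ * (1 / (1 + zb (XX T c) s ρ ^ 2)))) (Z : Finset ZS) :
    ∑ ρ ∈ Z, mx ρ * (if Real.log T * |(ρ : ℂ).re - 1 / 2| < Y then 0 else
      Real.exp (2 * za (XX T c) ρ) / (1 + zb (XX T c) s ρ ^ 2)) ≤
    2 * ∑ k ∈ IK T Y, LY C T c (2 ^ k * Y) s +
    Real.exp (XX T c) * ∑' ρ : ZS, mx ρ * (if |(ρ : ℂ).im - s| ≤ T / 2 then 0 else 1 / (1 + zb (XX T c) s ρ ^ 2)) +
    Real.exp (XX T c) * ∑' ρ : ZS, mx ρ * (if |(ρ : ℂ).re - 1 / 2| < 1 / 64 then 0 else 1 / (1 + zb (XX T c) s ρ ^ 2)) := by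
  have hL : 0 < Real.log T := Real.log_pos (by linarith)
  have hX : 0 < XX T c := by unfold XX; positivity
  set D : ZS → ℝ := fun ρ => mx ρ * (Real.exp (2 * za (XX T c) ρ) / (1 + zb (XX T c) s ρ ^ 2)) with hD
  have hD0 : ∀ ρ, 0 ≤ D ρ := fun ρ => mul_nonneg (mx_nonneg _) (by positivity)
  have hw0 : ∀ ρ : ZS, 0 ≤ 1 / (1 + zb (XX T c) s ρ ^ 2) := fun ρ => by positivity
  have hDX : ∀ ρ : ZS, D ρ ≤ Real.exp (XX T c) * (mx ρ * (1 / (1 + zb (XX T c) s ρ ^ 2))) := by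
    intro ρ
    have h1 : Real.exp (2 * za (XX T c) ρ) ≤ Real.exp (XX T c) := Real.exp_le_exp.2 (two_za_le hX ρ)
    calc D ρ = Real.exp (2 * za (XX T c) ρ) * (mx ρ * (1 / (1 + zb (XX T c) s ρ ^ 2))) := by
          simp only [hD]
          ring
      _ ≤ _ := mul_le_mul_of_nonneg_right h1 (mul_nonneg (mx_nonneg _) (hw0 ρ))
  set A : ZS → ℝ := fun ρ => mx ρ * (if |(ρ : ℂ).im - s| ≤ T / 2 then 0 else 1 / (1 + zb (XX T c) s ρ ^ 2)) with hA
  set B : ZS → ℝ := fun ρ => mx ρ * (if |(ρ : ℂ).re - 1 / 2| < 1 / 64 then 0 else 1 / (1 + zb (XX T c) s ρ ^ 2)) with hB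
  have hA0 : ∀ ρ, 0 ≤ A ρ := fun ρ => mul_nonneg (mx_nonneg _) (by split_ifs; exacts [le_rfl, hw0 ρ])
  have hB0 : ∀ ρ, 0 ≤ B ρ := fun ρ => mul_nonneg (mx_nonneg _) (by split_ifs; exacts [le_rfl, hw0 ρ])
  have hAs : Summable A := Summable.of_nonneg_of_le hA0 (fun ρ => mul_le_mul_of_nonneg_left (by
    split_ifs
    exacts [hw0 ρ, le_rfl]) (mx_nonneg _)) hsum
  have hBs : Summable B := Summable.of_nonneg_of_le hB0 (fun ρ => mul_le_mul_of_nonneg_left (by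
    split_ifs
    exacts [hw0 ρ, le_rfl]) (mx_nonneg _)) hsum
  let Pp : ZS → Prop := fun ρ => Y ≤ Real.log T * ((ρ : ℂ).re - 1 / 2) ∧ (ρ : ℂ).re - 1 / 2 < 1 / 64 ∧ |(ρ : ℂ).im - s| ≤ T / 2
  let Pm : ZS → Prop := fun ρ => Y ≤ Real.log T * ((refl ρ : ℂ).re - 1 / 2) ∧ (refl ρ : ℂ).re - 1 / 2 < 1 / 64 ∧ |(refl ρ : ℂ).im - s| ≤ T / 2
  have hpt : ∀ ρ ∈ Z, mx ρ * (if Real.log T * |(ρ : ℂ).re - 1 / 2| < Y then 0 else
      Real.exp (2 * za (XX T c) ρ) / (1 + zb (XX T c) s ρ ^ 2)) ≤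
      (if Pp ρ then D ρ else 0) + (if Pm ρ then D ρ else 0) + Real.exp (XX T c) * A ρ + Real.exp (XX T c) * B ρ := by
    intro ρ _
    have e1 : 0 ≤ (if Pp ρ then D ρ else 0) := by split_ifs; exacts [hD0 ρ, le_rfl]
    have e2 : 0 ≤ (if Pm ρ then D ρ else 0) := by split_ifs; exacts [hD0 ρ, le_rfl]
    have e3 : 0 ≤ Real.exp (XX T c) * A ρ := mul_nonneg (Real.exp_pos _).le (hA0 ρ)
    have e4 : 0 ≤ Real.exp (XX T c) * B ρ := mul_nonneg (Real.exp_pos _).le (hB0 ρ)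
    by_cases h0 : Real.log T * |(ρ : ℂ).re - 1 / 2| < Y
    · rw [if_pos h0, mul_zero]
      linarith
    · rw [if_neg h0]
      push Not at h0
      by_cases h1 : |(ρ : ℂ).im - s| ≤ T / 2
      · by_cases h2 : |(ρ : ℂ).re - 1 / 2| < 1 / 64
        · rcases le_or_gt 0 ((ρ : ℂ).re - 1 / 2) with h3 | h3
          · have h4 : Pp ρ := by
              rw [abs_of_nonneg h3] at h0 h2
              exact ⟨h0, h2, h1⟩
            have h5 : (if Pp ρ then D ρ else 0) = D ρ := if_pos h4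
            have h6 : D ρ = mx ρ * (Real.exp (2 * za (XX T c) ρ) / (1 + zb (XX T c) s ρ ^ 2)) := rfl
            linarith
          · have h4 : Pm ρ := by
              rw [abs_of_neg h3] at h0 h2
              refine ⟨?_, ?_, ?_⟩
              · rw [refl_re]
                have : 1 - (ρ : ℂ).re - 1 / 2 = -((ρ : ℂ).re - 1 / 2) := by ring
                rw [this]
                exact h0
              · rw [refl_re]
                linarith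
              · rw [refl_im]
                exact h1
            have h5 : (if Pm ρ then D ρ else 0) = D ρ := if_pos h4
            have h6 : D ρ = mx ρ * (Real.exp (2 * za (XX T c) ρ) / (1 + zb (XX T c) s ρ ^ 2)) := rfl
            linarith
        · have h5 : B ρ = mx ρ * (1 / (1 + zb (XX T c) s ρ ^ 2)) := by
            simp only [hB]
            rw [if_neg h2]
          have h6 := hDX ρ
          rw [← h5] at h6
          have h7 : D ρ = mx ρ * (Real.exp (2 * za (XX T c) ρ) / (1 + zb (XX T c) s ρ ^ 2)) := rfl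
          linarith
      · have h5 : A ρ = mx ρ * (1 / (1 + zb (XX T c) s ρ ^ 2)) := by
          simp only [hA]
          rw [if_neg h1]
        have h6 := hDX ρ
        rw [← h5] at h6
        have h7 : D ρ = mx ρ * (Real.exp (2 * za (XX T c) ρ) / (1 + zb (XX T c) s ρ ^ 2)) := rfl
        linarith
  refine (Finset.sum_le_sum hpt).trans ?_
  rw [Finset.sum_add_distrib, Finset.sum_add_distrib, Finset.sum_add_distrib, ← Finset.mul_sum, ← Finset.mul_sum,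
    ← Finset.sum_filter, ← Finset.sum_filter]
  have f1 : ∑ ρ ∈ Z.filter Pp, D ρ ≤ ∑ k ∈ IK T Y, LY C T c (2 ^ k * Y) s :=
    layers hch hT hc hY1 _ fun ρ hρ => (Finset.mem_filter.1 hρ).2
  have f2 : ∑ ρ ∈ Z.filter Pm, D ρ ≤ ∑ k ∈ IK T Y, LY C T c (2 ^ k * Y) s := by
    have g1 : ∑ ρ ∈ Z.filter Pm, D ρ = ∑ ρ ∈ (Z.filter Pm).map refl.toEmbedding, D ρ := by
      rw [Finset.sum_map]
      refine Finset.sum_congr rfl fun ρ _ => ?_
      simp only [hD, Equiv.coe_toEmbedding]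
      have z1 : za (XX T c) (refl ρ : ℂ) = za (XX T c) ρ := by
        unfold za
        rw [refl_re, show 1 - (ρ : ℂ).re - 1 / 2 = -((ρ : ℂ).re - 1 / 2) by ring, abs_neg]
      have z2 : zb (XX T c) s (refl ρ : ℂ) = zb (XX T c) s ρ := by
        unfold zb
        rw [refl_im]
      rw [refl_mx, z1, z2]
    rw [g1]
    refine layers hch hT hc hY1 _ fun ρ hρ => ?_
    obtain ⟨ρ', h1, rfl⟩ := Finset.mem_map.1 hρ
    exact (Finset.mem_filter.1 h1).2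
  have f3 : ∑ ρ ∈ Z, A ρ ≤ ∑' ρ, A ρ := hAs.sum_le_tsum _ fun ρ _ => hA0 ρ
  have f4 : ∑ ρ ∈ Z, B ρ ≤ ∑' ρ, B ρ := hBs.sum_le_tsum _ fun ρ _ => hB0 ρ
  have f5 := mul_le_mul_of_nonneg_left f3 (Real.exp_pos (XX T c)).le
  have f6 := mul_le_mul_of_nonneg_left f4 (Real.exp_pos (XX T c)).le
  linarith

end Pool.Agent.Helper56.UG
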